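import Mathlib

/-! Exchange lemma for sets covered by vertex-disjoint cycles (toggling walk). -/

namespace H91P

open Finset

variable {V : Type*} [DecidableEq V]

/-- number of edges of the edge set `E` at the vertex `v` -/
def dg (E : Finset (Sym2 V)) (v : V) : ℕ := (E.filter (fun e => v ∈ e)).card

theorem dg_mono {E F : Finset (Sym2 V)} (h : E ⊆ F) (v : V) : dg E v ≤ dg F v :=
  card_le_card (filter_subset_filter _ h)

theorem dg_insert_mem {E : Finset (Sym2 V)} {e : Sym2 V} {v : V} (he : e ∉ E) (hv : v ∈ e) :
    dg (insert e E) v = dg E v + 1 := by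
  unfold dg
  rw [filter_insert, if_pos hv, card_insert_of_notMem]
  intro h
  exact he (mem_filter.1 h).1

theorem dg_insert_not {E : Finset (Sym2 V)} {e : Sym2 V} {v : V} (hv : v ∉ e) :
    dg (insert e E) v = dg E v := by
  unfold dg
  rw [filter_insert, if_neg hv]

theorem dg_erase_mem {E : Finset (Sym2 V)} {e : Sym2 V} {v : V} (he : e ∈ E) (hv : v ∈ e) :
    dg (E.erase e) v + 1 = dg E v := by
  have h := dg_insert_mem (E := E.erase e) (e := e) (v := v) (notMem_erase e E) hv
  rw [insert_erase he] at h
  exact h.symm

theorem dg_erase_not {E : Finset (Sym2 V)} {e : Sym2 V} {v : V} (he : e ∈ E) (hv : v ∉ e) :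
    dg (E.erase e) v = dg E v := by
  have h := dg_insert_not (E := E.erase e) (e := e) (v := v) hv
  rw [insert_erase he] at h
  exact h.symm

/-- if `E` has more edges at `v` than `F`, there is an edge of `E - F` at `v` -/
theorem exists_edge {E F : Finset (Sym2 V)} {v : V} (h : dg F v < dg E v) :
    ∃ u, s(v, u) ∈ E ∧ s(v, u) ∉ F := by
  by_contra hc
  push Not at hc
  apply absurd h
  rw [not_lt]
  apply card_le_card
  intro e he
  rw [mem_filter] at he ⊢
  obtain ⟨he, hv⟩ := he
  refine ⟨?_, hv⟩
  obtain ⟨u, rfl⟩ := Sym2.mem_iff_exists.1 hv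
  exact hc u he

theorem dg_pos {E : Finset (Sym2 V)} {e : Sym2 V} {v : V} (he : e ∈ E) (hv : v ∈ e) :
    1 ≤ dg E v := by
  have := dg_erase_mem he hv
  omega

section walk

variable {F1 F2 : Finset (Sym2 V)} {A : Finset V} {b d : V}

/-- the toggling walk -/
theorem walk (hl : ∀ v, s(v, v) ∉ F1 ∪ F2) (hbd : b ≠ d)
    (h2 : ∀ v, dg F2 v = 0 ∨ dg F2 v = 2) (h2A : ∀ v ∈ A, dg F2 v = 2)
    (h2b : dg F2 b = 0) (h1d : dg F1 d = 0) :
    ∀ (N : ℕ) (H : Finset (Sym2 V)) (w : V), (symmDiff H F2).card ≤ N → H ⊆ F1 ∪ F2 →
      w ≠ d → w ≠ b → dg H d = 1 → (dg H w = 1 ∨ dg H w = 3) → (dg H w = 3 → dg F2 w = 2) →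
      dg H b = 2 → (∀ v, v ≠ w → v ≠ d → dg H v = 0 ∨ dg H v = 2) →
      (∀ v ∈ A, v ≠ w → dg H v = 2) →
      ∃ K : Finset (Sym2 V), K ⊆ F1 ∪ F2 ∧
        (((∀ v, dg K v = 0 ∨ dg K v = 2) ∧ (∀ v ∈ A, dg K v = 2) ∧ dg K b = 2 ∧ dg K d = 2) ∨
         (dg K b = 1 ∧ dg K d = 1 ∧ (∀ v, v ≠ b → v ≠ d → dg K v = 0 ∨ dg K v = 2) ∧
          (∀ v ∈ A, v ≠ b → dg K v = 2))) := by
  intro N
  induction N with
  | zero =>
    intro H w hN hH hwd hwb hd hw hw3 hb hall hA
    have : H = F2 := by
      have h0 : (symmDiff H F2).card = 0 := by omega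
      rw [card_eq_zero] at h0
      exact symmDiff_eq_bot.1 h0
    subst this
    rcases h2 w with h | h <;> omega
  | succ N ih =>
    intro H w hN hH hwd hwb hd hw hw3 hb hall hA
    -- erase an edge of H - F2 at w
    have erase_step : ∀ u, s(w, u) ∈ H → s(w, u) ∉ F2 →
        (dg H w = 3 ∨ (dg H w = 1 ∧ w ∉ A)) →
        ∃ K : Finset (Sym2 V), K ⊆ F1 ∪ F2 ∧
        (((∀ v, dg K v = 0 ∨ dg K v = 2) ∧ (∀ v ∈ A, dg K v = 2) ∧ dg K b = 2 ∧ dg K d = 2) ∨
         (dg K b = 1 ∧ dg K d = 1 ∧ (∀ v, v ≠ b → v ≠ d → dg K v = 0 ∨ dg K v = 2) ∧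
          (∀ v ∈ A, v ≠ b → dg K v = 2))) := by
      intro u hu hu2 hc
      have huw : u ≠ w := by
        rintro rfl
        exact hl _ (hH hu)
      have hud : u ≠ d := by
        rintro rfl
        have h1 : s(w, u) ∈ F1 := by
          rcases mem_union.1 (hH hu) with h | h
          · exact h
          · exact absurd h hu2
        have := dg_pos h1 (Sym2.mem_mk_right w u)
        omega
      have hwe : dg (H.erase s(w, u)) w + 1 = dg H w := dg_erase_mem hu (Sym2.mem_mk_left w u)
      have hue : dg (H.erase s(w, u)) u + 1 = dg H u := dg_erase_mem hu (Sym2.mem_mk_right w u)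
      have hoe : ∀ v, v ≠ w → v ≠ u → dg (H.erase s(w, u)) v = dg H v := by
        intro v h1 h3
        apply dg_erase_not hu
        simp [Sym2.mem_iff, h1, h3]
      have hsub : H.erase s(w, u) ⊆ F1 ∪ F2 := (erase_subset _ _).trans hH
      by_cases hub : u = b
      · subst hub
        refine ⟨H.erase s(w, u), hsub, Or.inr ⟨by omega, ?_, ?_, ?_⟩⟩
        · rw [hoe d (Ne.symm hwd) (Ne.symm hud)]
          exact hd
        · intro v h1 h3
          by_cases hvw : v = w
          · subst hvw
            rcases hc with hc | hc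
            · right; omega
            · left; omega
          · rw [hoe v hvw h1]
            exact hall v hvw h3
        · intro v hvA h1
          by_cases hvw : v = w
          · subst hvw
            rcases hc with hc | hc
            · omega
            · exact absurd hvA hc.2
          · rw [hoe v hvw h1]
            exact hA v hvA hvw
      · have hu2' : dg H u = 2 := by
          rcases hall u huw hud with h | h
          · omega
          · exact h
        refine ih (H.erase s(w, u)) u ?_ hsub hud hub ?_ (Or.inl (by omega)) (by omega) ?_ ?_ ?_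
        · have hss : symmDiff (H.erase s(w, u)) F2 ⊂ symmDiff H F2 := by
            rw [ssubset_iff_of_subset]
            · refine ⟨s(w, u), ?_, ?_⟩
              · rw [mem_symmDiff]
                exact Or.inl ⟨hu, hu2⟩
              · rw [mem_symmDiff]
                rintro (⟨h, -⟩ | ⟨h, -⟩)
                · exact notMem_erase _ _ h
                · exact hu2 h
            · intro e he
              rw [mem_symmDiff] at he ⊢
              rcases he with ⟨h1, h3⟩ | ⟨h1, h3⟩
              · exact Or.inl ⟨mem_of_mem_erase h1, h3⟩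
              · refine Or.inr ⟨h1, ?_⟩
                intro h4
                apply h3
                rw [mem_erase]
                refine ⟨?_, h4⟩
                rintro rfl
                exact hu2 h1
          have := card_lt_card hss
          omega
        · rw [hoe d (Ne.symm hwd) (Ne.symm hud)]
          exact hd
        · rw [hoe b (Ne.symm hwb) (Ne.symm hub)]
          exact hb
        · intro v h1 h3
          by_cases hvw : v = w
          · subst hvw
            rcases hc with hc | hc
            · right; omega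
            · left; omega
          · rw [hoe v hvw h1]
            exact hall v hvw h3
        · intro v hvA h1
          by_cases hvw : v = w
          · subst hvw
            rcases hc with hc | hc
            · omega
            · exact absurd hvA hc.2
          · rw [hoe v hvw h1]
            exact hA v hvA hvw
    rcases hw with hw1 | hw3'
    · rcases h2 w with h20 | h22
      · -- degree 1, target 0
        obtain ⟨u, hu, -⟩ := exists_edge (E := H) (F := ∅) (v := w) (by
          have h0 : dg (∅ : Finset (Sym2 V)) w = 0 := by simp [dg]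
          omega)
        have hu2 : s(w, u) ∉ F2 := by
          intro h
          have := dg_pos h (Sym2.mem_mk_left w u)
          omega
        refine erase_step u hu hu2 (Or.inr ⟨hw1, ?_⟩)
        intro hwA
        have := h2A w hwA
        omega
      · -- degree 1, target 2: insert
        obtain ⟨u, hu2, hu⟩ := exists_edge (E := F2) (F := H) (v := w) (by omega)
        have huw : u ≠ w := by
          rintro rfl
          exact hl _ (mem_union_right _ hu2)
        have hub : u ≠ b := by
          rintro rfl
          have := dg_pos hu2 (Sym2.mem_mk_right w u)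
          omega
        have hwe : dg (insert s(w, u) H) w = dg H w + 1 := dg_insert_mem hu (Sym2.mem_mk_left w u)
        have hue : dg (insert s(w, u) H) u = dg H u + 1 := dg_insert_mem hu (Sym2.mem_mk_right w u)
        have hoe : ∀ v, v ≠ w → v ≠ u → dg (insert s(w, u) H) v = dg H v := by
          intro v h1 h3
          apply dg_insert_not
          simp [Sym2.mem_iff, h1, h3]
        have hsub : insert s(w, u) H ⊆ F1 ∪ F2 := by
          intro e he
          rcases mem_insert.1 he with h | h
          · rw [h]; exact mem_union_right _ hu2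
          · exact hH h
        by_cases hud : u = d
        · subst hud
          refine ⟨insert s(w, u) H, hsub, Or.inl ⟨?_, ?_, ?_, by omega⟩⟩
          · intro v
            by_cases hvw : v = w
            · subst hvw; right; omega
            · by_cases hvu : v = u
              · subst hvu; right; omega
              · rw [hoe v hvw hvu]
                exact hall v hvw hvu
          · intro v hvA
            by_cases hvw : v = w
            · subst hvw; omega
            · by_cases hvu : v = u
              · subst hvu; omega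
              · rw [hoe v hvw hvu]
                exact hA v hvA hvw
          · rw [hoe b (Ne.symm hwb) hbd]
            exact hb
        · have hu22 : dg F2 u = 2 := by
            rcases h2 u with h | h
            · have := dg_pos hu2 (Sym2.mem_mk_right w u)
              omega
            · exact h
          have huH := hall u huw hud
          refine ih (insert s(w, u) H) u ?_ hsub hud hub ?_ (by omega) (fun _ => hu22) ?_ ?_ ?_
          · have hss : symmDiff (insert s(w, u) H) F2 ⊂ symmDiff H F2 := by
              rw [ssubset_iff_of_subset]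
              · refine ⟨s(w, u), ?_, ?_⟩
                · rw [mem_symmDiff]
                  exact Or.inr ⟨hu2, hu⟩
                · rw [mem_symmDiff]
                  rintro (⟨-, h⟩ | ⟨-, h⟩)
                  · exact h hu2
                  · exact h (mem_insert_self _ _)
              · intro e he
                rw [mem_symmDiff] at he ⊢
                rcases he with ⟨h1, h3⟩ | ⟨h1, h3⟩
                · rcases mem_insert.1 h1 with h | h
                  · subst h; exact absurd hu2 h3
                  · exact Or.inl ⟨h, h3⟩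
                · exact Or.inr ⟨h1, fun h4 => h3 (mem_insert_of_mem h4)⟩
            have := card_lt_card hss
            omega
          · rw [hoe d (Ne.symm hwd) (Ne.symm hud)]
            exact hd
          · rw [hoe b (Ne.symm hwb) (Ne.symm hub)]
            exact hb
          · intro v h1 h3
            by_cases hvw : v = w
            · subst hvw; right; omega
            · rw [hoe v hvw h1]
              exact hall v hvw h3
          · intro v hvA h1
            by_cases hvw : v = w
            · subst hvw; omega
            · rw [hoe v hvw h1]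
              exact hA v hvA hvw
    · -- degree 3
      have h22 := hw3 hw3'
      obtain ⟨u, hu, hu2⟩ := exists_edge (E := H) (F := F2) (v := w) (by omega)
      exact erase_step u hu hu2 (Or.inl hw3')

/-- the whole toggling process -/
theorem toggle (hl : ∀ v, s(v, v) ∉ F1 ∪ F2) (hbd : b ≠ d) (hbA : b ∉ A)
    (h1 : ∀ v, dg F1 v = 0 ∨ dg F1 v = 2) (h1A : ∀ v ∈ A, dg F1 v = 2) (h1b : dg F1 b = 2)
    (h1d : dg F1 d = 0)
    (h2 : ∀ v, dg F2 v = 0 ∨ dg F2 v = 2) (h2A : ∀ v ∈ A, dg F2 v = 2) (h2d : dg F2 d = 2)
    (h2b : dg F2 b = 0) :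
      ∃ K : Finset (Sym2 V), K ⊆ F1 ∪ F2 ∧
        (((∀ v, dg K v = 0 ∨ dg K v = 2) ∧ (∀ v ∈ A, dg K v = 2) ∧ dg K b = 2 ∧ dg K d = 2) ∨
         (dg K b = 1 ∧ dg K d = 1 ∧ (∀ v, v ≠ b → v ≠ d → dg K v = 0 ∨ dg K v = 2) ∧
          (∀ v ∈ A, dg K v = 2))) := by
  obtain ⟨u, hu2, hu⟩ := exists_edge (E := F2) (F := F1) (v := d) (by omega)
  have hud : u ≠ d := by
    rintro rfl
    exact hl _ (mem_union_right _ hu2)
  have hub : u ≠ b := by
    rintro rfl
    have := dg_pos hu2 (Sym2.mem_mk_right d u)
    omega
  have hde : dg (insert s(d, u) F1) d = dg F1 d + 1 := dg_insert_mem hu (Sym2.mem_mk_left d u)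
  have hue : dg (insert s(d, u) F1) u = dg F1 u + 1 := dg_insert_mem hu (Sym2.mem_mk_right d u)
  have hoe : ∀ v, v ≠ d → v ≠ u → dg (insert s(d, u) F1) v = dg F1 v := by
    intro v h3 h4
    apply dg_insert_not
    simp [Sym2.mem_iff, h3, h4]
  have hu22 : dg F2 u = 2 := by
    rcases h2 u with h | h
    · have := dg_pos hu2 (Sym2.mem_mk_right d u)
      omega
    · exact h
  have hu1 := h1 u
  obtain ⟨K, hK, h⟩ := walk (F1 := F1) (F2 := F2) (A := A) (b := b) (d := d) hl hbd h2 h2A h2b h1d
    _ (insert s(d, u) F1) u le_rfl (by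
      intro e he
      rcases mem_insert.1 he with h | h
      · rw [h]; exact mem_union_right _ hu2
      · exact mem_union_left _ h) hud hub (by omega) (by omega) (fun _ => hu22)
    (by rw [hoe b hbd (Ne.symm hub)]; exact h1b)
    (by
      intro v h3 h4
      rw [hoe v h4 h3]
      exact h1 v)
    (by
      intro v hvA h3
      by_cases hvd : v = d
      · subst hvd
        have := h1A v hvA
        omega
      · rw [hoe v hvd h3]
        exact h1A v hvA)
  refine ⟨K, hK, ?_⟩
  rcases h with h | ⟨h3, h4, h5, h6⟩
  · exact Or.inl h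
  · exact Or.inr ⟨h3, h4, h5, fun v hv => h6 v hv (by rintro rfl; exact hbA hv)⟩

end walk

/-- closing with a path -/
theorem close (G : SimpleGraph V) {x y : V} (p : G.Walk x y) :
    p.IsPath → x ≠ y → ∀ H : Finset (Sym2 V), (∀ e ∈ H, e ∈ G.edgeSet) → dg H x = 1 →
      dg H y = 1 → s(x, y) ∉ H → (∀ v, v ≠ x → v ≠ y → dg H v = 0 ∨ dg H v = 2) →
      (∀ v ∈ p.support, v ≠ x → v ≠ y → dg H v = 0) →
      ∃ F : Finset (Sym2 V), (∀ e ∈ F, e ∈ G.edgeSet) ∧ H ⊆ F ∧
        (∀ v, dg F v = 0 ∨ dg F v = 2) ∧ dg F x = 2 ∧ dg F y = 2 := by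
  induction p with
  | nil => intro _ h; exact absurd rfl h
  | @cons x z y hxz p ih =>
    intro hp hxy H hHG hx hy hxyH hall hin
    rw [SimpleGraph.Walk.cons_isPath_iff] at hp
    obtain ⟨hp, hxp⟩ := hp
    have hzx : z ≠ x := fun h => (hxz.ne h.symm)
    by_cases hzy : z = y
    · subst hzy
      have hxe : dg (insert s(x, z) H) x = dg H x + 1 :=
        dg_insert_mem hxyH (Sym2.mem_mk_left x z)
      have hze : dg (insert s(x, z) H) z = dg H z + 1 :=
        dg_insert_mem hxyH (Sym2.mem_mk_right x z)
      refine ⟨insert s(x, z) H, ?_, subset_insert _ _, ?_, by omega, by omega⟩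
      · intro e he
        rcases mem_insert.1 he with h | h
        · rw [h]; exact hxz
        · exact hHG e h
      · intro v
        by_cases hvx : v = x
        · subst hvx; right; omega
        · by_cases hvz : v = z
          · subst hvz; right; omega
          · rw [dg_insert_not (by simp [Sym2.mem_iff, hvx, hvz])]
            exact hall v hvx hvz
    · have hz0 : dg H z = 0 := hin z (by simp) hzx hzy
      have hxzH : s(x, z) ∉ H := by
        intro h
        have := dg_pos h (Sym2.mem_mk_right x z)
        omega
      have hxe : dg (insert s(x, z) H) x = dg H x + 1 :=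
        dg_insert_mem hxzH (Sym2.mem_mk_left x z)
      have hze : dg (insert s(x, z) H) z = dg H z + 1 :=
        dg_insert_mem hxzH (Sym2.mem_mk_right x z)
      have hoe : ∀ v, v ≠ x → v ≠ z → dg (insert s(x, z) H) v = dg H v := by
        intro v h3 h4
        apply dg_insert_not
        simp [Sym2.mem_iff, h3, h4]
      obtain ⟨F, hFG, hF, hFall, hFz, hFy⟩ := ih hp hzy (insert s(x, z) H) (by
          intro e he
          rcases mem_insert.1 he with h | h
          · rw [h]; exact hxz
          · exact hHG e h) (by omega)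
        (by rw [hoe y (Ne.symm hxy) (Ne.symm hzy)]; exact hy)
        (by
          intro h
          rcases mem_insert.1 h with h | h
          · rw [Sym2.eq_iff] at h
            rcases h with ⟨h3, -⟩ | ⟨-, h3⟩
            · exact hzx h3
            · exact hxy h3.symm
          · have := dg_pos h (Sym2.mem_mk_left z y)
            omega)
        (by
          intro v h3 h4
          by_cases hvx : v = x
          · subst hvx; right; omega
          · rw [hoe v hvx h3]
            exact hall v hvx h4)
        (by
          intro v hv h3 h4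
          have hvx : v ≠ x := by
            rintro rfl
            exact hxp hv
          rw [hoe v hvx h3]
          exact hin v (by simp [hv]) hvx h4)
      refine ⟨F, hFG, (subset_insert _ _).trans hF, hFall, ?_, hFy⟩
      have := dg_mono hF x
      rcases hFall x with h | h
      · omega
      · exact h

/-- `A` is covered by vertex-disjoint cycles of `G` (edge set form) -/
def CovE (G : SimpleGraph V) (A : Finset V) : Prop :=
  ∃ E : Finset (Sym2 V), (∀ e ∈ E, e ∈ G.edgeSet) ∧ (∀ v, dg E v = 0 ∨ dg E v = 2) ∧
    ∀ v ∈ A, dg E v = 2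

theorem CovE.mono {G : SimpleGraph V} {A B : Finset V} (h : CovE G B) (hAB : A ⊆ B) : CovE G A := by
  obtain ⟨E, h1, h2, h3⟩ := h
  exact ⟨E, h1, h2, fun v hv => h3 v (hAB hv)⟩

/-- exchange lemma, edge set form -/
theorem exchangeE (G : SimpleGraph V) {A : Finset V} {b d : V} (hb : CovE G (insert b A))
    (hd : CovE G (insert d A)) (p : G.Walk b d)
    (hp : ∀ v ∈ p.support, v = b ∨ v = d ∨ (v ∉ A ∧ ¬ CovE G (insert v A))) :
    CovE G (insert b (insert d A)) := by
  by_cases hbd : b = d
  · subst hbd
    rw [insert_idem]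
    exact hb
  by_cases hbA : b ∈ A
  · rw [insert_eq_of_mem (mem_insert_of_mem hbA)]
    exact hd
  obtain ⟨F1, hG1, h1, h1A⟩ := hb
  obtain ⟨F2, hG2, h2, h2A⟩ := hd
  have h1b : dg F1 b = 2 := h1A b (mem_insert_self _ _)
  have h2d : dg F2 d = 2 := h2A d (mem_insert_self _ _)
  have h1A' : ∀ v ∈ A, dg F1 v = 2 := fun v hv => h1A v (mem_insert_of_mem hv)
  have h2A' : ∀ v ∈ A, dg F2 v = 2 := fun v hv => h2A v (mem_insert_of_mem hv)
  rcases h1 d with h1d | h1d
  swap
  · refine ⟨F1, hG1, h1, ?_⟩
    intro v hv
    rcases mem_insert.1 hv with rfl | hv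
    · exact h1b
    rcases mem_insert.1 hv with rfl | hv
    · exact h1d
    · exact h1A' v hv
  rcases h2 b with h2b | h2b
  swap
  · refine ⟨F2, hG2, h2, ?_⟩
    intro v hv
    rcases mem_insert.1 hv with rfl | hv
    · exact h2b
    rcases mem_insert.1 hv with rfl | hv
    · exact h2d
    · exact h2A' v hv
  have hGu : ∀ e ∈ F1 ∪ F2, e ∈ G.edgeSet := by
    intro e he
    rcases mem_union.1 he with h | h
    · exact hG1 e h
    · exact hG2 e h
  have hl : ∀ v, s(v, v) ∉ F1 ∪ F2 := by
    intro v h
    exact G.loopless.irrefl v (hGu _ h)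
  obtain ⟨K, hK, h | ⟨hKb, hKd, hKall, hKA⟩⟩ :=
    toggle hl hbd hbA h1 h1A' h1b h1d h2 h2A' h2d h2b
  · obtain ⟨h3, h4, h5, h6⟩ := h
    refine ⟨K, fun e he => hGu e (hK he), h3, ?_⟩
    intro v hv
    rcases mem_insert.1 hv with rfl | hv
    · exact h5
    rcases mem_insert.1 hv with rfl | hv
    · exact h6
    · exact h4 v hv
  · have hdA : d ∉ A := by
      intro h
      have := h1A' d h
      omega
    have hq : (p.bypass).IsPath := p.bypass_isPath
    have hnone : ∀ v, v ≠ b → v ≠ d → (v ∉ A ∧ ¬ CovE G (insert v A)) → dg K v = 0 := by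
      intro v _ _ hv
      rcases h1 v with h3 | h3
      · rcases h2 v with h4 | h4
        · by_contra hc
          obtain ⟨u, hu, -⟩ := exists_edge (E := K) (F := ∅) (v := v) (by
            have h0 : dg (∅ : Finset (Sym2 V)) v = 0 := by simp [dg]
            omega)
          rcases mem_union.1 (hK hu) with h | h
          · have := dg_pos h (Sym2.mem_mk_left v u)
            omega
          · have := dg_pos h (Sym2.mem_mk_left v u)
            omega
        · exact absurd ⟨F2, hG2, h2, fun x hx => by
            rcases mem_insert.1 hx with rfl | hx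
            · exact h4
            · exact h2A' x hx⟩ hv.2
      · exact absurd ⟨F1, hG1, h1, fun x hx => by
            rcases mem_insert.1 hx with rfl | hx
            · exact h3
            · exact h1A' x hx⟩ hv.2
    obtain ⟨F, hFG, hKF, hFall, hFb, hFd⟩ := close G p.bypass hq hbd K (fun e he => hGu e (hK he))
      hKb hKd (by
        intro h
        rcases mem_union.1 (hK h) with h | h
        · have := dg_pos h (Sym2.mem_mk_right b d)
          omega
        · have := dg_pos h (Sym2.mem_mk_left b d)
          omega) hKall (by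
        intro v hv h3 h4
        rcases hp v (p.support_bypass_subset_support hv) with h | h | h
        · exact absurd h h3
        · exact absurd h h4
        · exact hnone v h3 h4 h)
    refine ⟨F, hFG, hFall, ?_⟩
    intro v hv
    rcases mem_insert.1 hv with rfl | hv
    · exact hFb
    rcases mem_insert.1 hv with rfl | hv
    · exact hFd
    · have h5 := dg_mono hKF v
      have h6 := hKA v hv
      rcases hFall v with h | h
      · omega
      · exact h

/-- `A` is covered by vertex-disjoint cycles of `G` (subgraph form) -/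
def Cov (G : SimpleGraph V) (A : Finset V) : Prop :=
  ∃ F : SimpleGraph V, F ≤ G ∧ (∀ v, (F.neighborSet v).ncard = 0 ∨ (F.neighborSet v).ncard = 2) ∧
    ∀ v ∈ A, (F.neighborSet v).ncard = 2

theorem ncard_eq_dg (E : Finset (Sym2 V)) (F : SimpleGraph V) (h : ∀ e, e ∈ E ↔ e ∈ F.edgeSet)
    (v : V) : (F.neighborSet v).ncard = dg E v := by
  unfold dg
  rw [← Set.ncard_coe_finset]
  apply Set.ncard_congr (fun u _ => s(v, u))
  · intro u hu
    simp only [coe_filter, Set.mem_ofPred_eq]
    exact ⟨(h _).2 hu, Sym2.mem_mk_left v u⟩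
  · intro a c _ _ hac
    exact Sym2.congr_right.1 hac
  · intro e he
    simp only [coe_filter, Set.mem_ofPred_eq] at he
    obtain ⟨he, hv⟩ := he
    obtain ⟨u, rfl⟩ := Sym2.mem_iff_exists.1 hv
    exact ⟨u, (h _).1 he, rfl⟩

theorem cov_iff [Finite V] (G : SimpleGraph V) (A : Finset V) : Cov G A ↔ CovE G A := by
  constructor
  · rintro ⟨F, hF, h1, h2⟩
    have hfin : F.edgeSet.Finite := Set.toFinite _
    have hE : ∀ e, e ∈ hfin.toFinset ↔ e ∈ F.edgeSet := by
      intro e
      simp
    refine ⟨hfin.toFinset, ?_, ?_, ?_⟩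
    · intro e he
      exact SimpleGraph.edgeSet_mono hF ((hE e).1 he)
    · intro v
      rw [← ncard_eq_dg _ F hE]
      exact h1 v
    · intro v hv
      rw [← ncard_eq_dg _ F hE]
      exact h2 v hv
  · rintro ⟨E, hE, h1, h2⟩
    have hh : ∀ e, e ∈ E ↔ e ∈ (SimpleGraph.fromEdgeSet (E : Set (Sym2 V))).edgeSet := by
      intro e
      rw [SimpleGraph.edgeSet_fromEdgeSet]
      constructor
      · intro he
        exact ⟨he, G.not_isDiag_of_mem_edgeSet (hE e he)⟩
      · intro he
        exact he.1
    refine ⟨SimpleGraph.fromEdgeSet (E : Set (Sym2 V)), ?_, ?_, ?_⟩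
    · rw [← SimpleGraph.edgeSet_subset_edgeSet]
      intro e he
      exact hE e ((hh e).2 he)
    · intro v
      rw [ncard_eq_dg _ _ hh]
      exact h1 v
    · intro v hv
      rw [ncard_eq_dg _ _ hh]
      exact h2 v hv

omit [DecidableEq V] in
theorem Cov.mono {G : SimpleGraph V} {A B : Finset V} (h : Cov G B) (hAB : A ⊆ B) : Cov G A := by
  obtain ⟨E, h1, h2, h3⟩ := h
  exact ⟨E, h1, h2, fun v hv => h3 v (hAB hv)⟩

/-- (C1) exchange lemma -/
theorem exchange [Finite V] (G : SimpleGraph V) {A : Finset V} {b d : V}
    (hb : Cov G (insert b A)) (hd : Cov G (insert d A)) (p : G.Walk b d)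
    (hp : ∀ v ∈ p.support, v = b ∨ v = d ∨ (v ∉ A ∧ ¬ Cov G (insert v A))) :
    Cov G (insert b (insert d A)) := by
  rw [cov_iff] at hb hd ⊢
  apply exchangeE G hb hd p
  intro v hv
  rcases hp v hv with h | h | h
  · exact Or.inl h
  · exact Or.inr (Or.inl h)
  · rw [cov_iff] at h
    exact Or.inr (Or.inr h)

end H91P
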